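import Mathlib

set_option autoImplicit false

namespace Pool.Agent.Results.MP_24a371_gt.Counter

open Set Topology Filter

abbrev T : Type := AddCircle (1 : ℝ)

def sv {X : Type} [AddCommGroup X] [TopologicalSpace X] (v : ℕ → X →ₜ+ T) : Set X :=
  {x | Tendsto (fun n => v n x) atTop (𝓝 0)}

def TSeq {G : Type} [AddCommGroup G] (v : ℕ → G) : Prop :=
  ∃ t : TopologicalSpace G, @IsTopologicalAddGroup G t _ ∧ @T2Space G t ∧
    Tendsto v atTop (@nhds G t 0)

def TChar {X : Type} [AddCommGroup X] [TopologicalSpace X] (H : AddSubgroup X) : Prop :=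
  ∃ v : ℕ → X →ₜ+ T, TSeq v ∧ (H : Set X) = sv v

def DuallyEmbedded {X : Type} [AddCommGroup X] [TopologicalSpace X] (H : AddSubgroup X) : Prop :=
  ∀ χ : H →ₜ+ T, ∃ ψ : X →ₜ+ T, ∀ h : H, ψ h = χ h

lemma TSeq.ev {X : Type} [AddCommGroup X] [TopologicalSpace X] {v : ℕ → X →ₜ+ T} (hv : TSeq v)
    (m k : ℕ) (z : X) (hk : 0 < k) (hz : k • z = 0)
    (h : ∀ w : X →ₜ+ T, (m • w) z = 0 → m • w = 0) : ∀ᶠ n in atTop, m • v n = 0 := by
  obtain ⟨t, h1, h2, h3⟩ := hv
  have h4 : (range fun w : X →ₜ+ T => m • w).Finite := by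
    refine Finite.of_finite_image (f := fun w => w z) ((AddCircle.finite_torsion 1 hk).subset ?_) ?_
    · rintro _ ⟨w, -, rfl⟩
      exact (map_nsmul w k z).symm.trans (hz ▸ map_zero w)
    · rintro _ ⟨w, rfl⟩ _ ⟨w', rfl⟩ h5
      refine sub_eq_zero.1 ((smul_sub m w w').symm.trans (h _ ?_))
      rw [smul_sub]
      exact sub_eq_zero.2 h5
  filter_upwards [(h3.nsmul m).eventually ((h4.sdiff (t := {0})).isClosed.isOpen_compl.mem_nhds
    (by simp))] with n hn
  exact by_contra fun c => hn ⟨⟨_, rfl⟩, c⟩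

lemma nsmul_apply {X : Type} [AddCommGroup X] [TopologicalSpace X] (w : X →ₜ+ T) (m : ℕ) (x : X) :
    (m • w) x = w (m • x) := by
  induction m with
  | zero => simp
  | succ m ih => rw [succ_nsmul, succ_nsmul, map_add, ← ih]; rfl

lemma exists_lim : ∃ L : (ℕ → T) →+ T, ∀ f c, (∀ᶠ k in atTop, f k = c) → L f = c := by
  have h : ∀ f : ℕ → T, Tendsto f (hyperfilter ℕ) (𝓝 ((hyperfilter ℕ).map f).lim) := fun f =>
    ((hyperfilter ℕ).map f).le_nhds_lim
  refine ⟨AddMonoidHom.mk' (fun f => ((hyperfilter ℕ).map f).lim) fun f g =>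
    tendsto_nhds_unique (h (f + g)) ((h f).add (h g)), fun f c hc => tendsto_nhds_unique (h f) ?_⟩
  exact (tendsto_const_nhds.congr' (hc.mono fun _ => Eq.symm)).mono_left Nat.hyperfilter_le_atTop

lemma tseq {Y : Type} [AddCommGroup Y] [TopologicalSpace Y] (v : ℕ → Y →ₜ+ T) (S : Set Y) (z : Y)
    (e : ℕ → Y) (he : ∀ k, e k ∈ S) (h1 : ∀ w : Y →ₜ+ T, (∀ s ∈ S, w s = 0) → w z = 0 → w = 0)
    (h2 : S ⊆ sv v) (h3 : ∀ n, ∀ᶠ k in atTop, v n (e k) = v n z) : TSeq v := by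
  obtain ⟨L, hL⟩ := exists_lim
  let Φ : (Y →ₜ+ T) →+ (S → T) × T := AddMonoidHom.mk'
    (fun w => (fun s => w s, w z - L fun k => w (e k))) fun w w' => Prod.ext rfl (by
      show w z + w' z - L ((fun k => w (e k)) + fun k => w' (e k)) = _ - _ + (_ - _)
      rw [map_add]; abel)
  let t : TopologicalSpace (Y →ₜ+ T) := .induced Φ inferInstance
  refine ⟨t, topologicalAddGroup_induced Φ, @T2Space.of_injective_continuous _ _ t _ _ Φ
    ((injective_iff_map_eq_zero Φ).2 fun w hw => ?_) continuous_induced_dom, ?_⟩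
  · have h4 : ∀ s ∈ S, w s = 0 := fun s hs => congrFun (congrArg Prod.fst hw) ⟨s, hs⟩
    have h5 : w z - L (fun k => w (e k)) = 0 := congrArg Prod.snd hw
    rw [hL _ 0 (.of_forall fun k => h4 _ (he k)), sub_zero] at h5
    exact h1 w h4 h5
  · rw [nhds_induced, tendsto_comap_iff, map_zero]
    exact (tendsto_pi_nhds.2 fun s : S => h2 s.2).prodMk_nhds
      (tendsto_const_nhds.congr fun n => (sub_eq_zero.2 (hL _ _ (h3 n)).symm).symm)

def X : Type := (ℕ →₀ ZMod 2) × ZMod 4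
noncomputable instance : AddCommGroup X := inferInstanceAs (AddCommGroup ((ℕ →₀ ZMod 2) × ZMod 4))
instance : TopologicalSpace X := ⊥
instance : DiscreteTopology X := ⟨rfl⟩

noncomputable def p : X →+ ZMod 4 := AddMonoidHom.snd _ _

noncomputable def q : X →+ (ℕ →₀ ZMod 2) := AddMonoidHom.fst _ _
def mk (h : ℕ →₀ ZMod 2) (a : ZMod 4) : X := (h, a)

noncomputable def u (c n : ℕ) : X →+ T :=
  ZMod.toAddCircle.comp ((Finsupp.applyAddHom n).comp q) +
    ZMod.toAddCircle.comp (c • p)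

lemma u_lim (c : ℕ) (x : X) : Tendsto (fun n => u c n x) atTop (𝓝 0) ↔ c • p x = 0 := by
  rw [tendsto_congr' (f₂ := fun _ => ZMod.toAddCircle (c • p x)), tendsto_const_nhds_iff,
    ZMod.toAddCircle_eq_zero]
  filter_upwards [Nat.cofinite_eq_atTop ▸ x.1.support.finite_toSet.compl_mem_cofinite] with n hn
  show ZMod.toAddCircle (x.1 n) + _ = _
  rw [Finsupp.notMem_support_iff.1 hn, map_zero, zero_add]
  rfl

noncomputable def e (k : ℕ) : X := (Finsupp.indicator (Finset.range k) fun _ _ => 1, 0)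

lemma u_e (c n : ℕ) (a : ZMod 4) (h : c • a = 2) : ∀ᶠ k in atTop, u c n (e k) = u c n (mk 0 a) := by
  filter_upwards [eventually_gt_atTop n] with k hk
  show ZMod.toAddCircle (Finsupp.indicator (Finset.range k) (fun _ _ => (1 : ZMod 2)) n) +
    ZMod.toAddCircle (c • (0 : ZMod 4)) = ZMod.toAddCircle (0 : ZMod 2) + ZMod.toAddCircle (c • a)
  rw [Finsupp.indicator_of_mem (Finset.mem_range.2 hk), h, smul_zero, map_zero, map_zero, add_zero,
    zero_add, show (1 : ZMod 2) = (1 : ℕ) from rfl, show (2 : ZMod 4) = (2 : ℕ) from rfl,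
    ZMod.toAddCircle_natCast, ZMod.toAddCircle_natCast]
  norm_num

theorem result : ∃ (X : Type) (_ : AddCommGroup X) (_ : TopologicalSpace X)
    (_ : IsTopologicalAddGroup X) (X₀ X₁ : AddSubgroup X), T2Space X ∧ X₀ ≤ X₁ ∧
      DuallyEmbedded X₁ ∧ TChar (X₀.addSubgroupOf X₁) ∧ TChar X₁ ∧ ¬ TChar X₀ := by
  have gen : ∀ (x : X) (a : ZMod 4) (m : ℕ), p x = m • a → x = mk x.1 0 + m • mk 0 a :=
    fun x a m h => Prod.ext (by show x.1 = x.1 + m • 0; simp) (h.trans (zero_add _).symm)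
  refine ⟨X, inferInstance, inferInstance, inferInstance, p.ker, ((2 : ℕ) • p).ker, inferInstance,
    fun x hx => show (2 : ℕ) • p x = 0 by simp [show p x = 0 from hx], fun χ => ?_,
    ⟨fun n => ⟨(u 1 n).comp (AddSubgroup.subtype _), continuous_of_discreteTopology⟩, ?_,
      Set.ext fun x => ((u_lim 1 x).trans (by rw [one_smul]; rfl)).symm⟩,
    ⟨fun n => ⟨u 2 n, continuous_of_discreteTopology⟩, ?_, Set.ext fun x => (u_lim 2 x).symm⟩,
    fun ⟨v, h1, h2⟩ => ?_⟩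
  · obtain ⟨ψ, h⟩ := (Module.Baer.of_divisible T).extension_property_addMonoidHom
      ((2 : ℕ) • p).ker.subtype Subtype.val_injective χ.toAddMonoidHom
    exact ⟨⟨ψ, continuous_of_discreteTopology⟩, fun x => DFunLike.congr_fun h x⟩
  · refine tseq _ {x | p x = 0} ⟨mk 0 2, rfl⟩ (fun k => ⟨e k, rfl⟩) (fun _ => rfl)
      (fun w h1 h2 => ContinuousAddMonoidHom.ext fun x => ?_)
      (fun x hx => (u_lim 1 x).2 ((one_smul _ _).trans hx)) fun n => u_e 1 n 2 rfl
    obtain ⟨m, hm⟩ := (by decide : ∀ a : ZMod 4, 2 • a = 0 → ∃ m : Fin 2, a = m.1 • 2) (p x) x.2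
    have : x = ⟨mk x.1.1 0, rfl⟩ + m.1 • ⟨mk 0 2, rfl⟩ := Subtype.ext (gen x 2 m hm)
    rw [this, map_add, map_nsmul, h2, h1 _ rfl]
    simp
  · refine tseq _ {x | p x = 0} (mk 0 1) e (fun _ => rfl)
      (fun w h1 h2 => ContinuousAddMonoidHom.ext fun x => ?_)
      (fun x hx => (u_lim 2 x).2 (by rw [show p x = 0 from hx]; rfl)) fun n => u_e 2 n 1 rfl
    rw [gen x 1 (p x).val (by simp), map_add, map_nsmul, h2, h1 _ rfl]
    simp
  · let z : X := mk 0 1
    have h4 : 2 • z ∈ sv v := tendsto_const_nhds.congr' ((h1.ev 2 4 z four_pos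
      (Prod.ext (smul_zero 4) (show 4 • (1 : ZMod 4) = 0 by decide)) fun w hw => ContinuousAddMonoidHom.ext fun x => by
        have : 2 • mk x.1 0 = 0 := Prod.ext (Finsupp.ext fun i =>
          (by decide : ∀ a : ZMod 2, 2 • a = 0) (x.1 i)) rfl
        rw [gen x 1 (p x).val (by simp), map_add, map_nsmul, hw, nsmul_apply, this]
        simp).mono fun n hn => ((nsmul_apply _ _ _).symm.trans (DFunLike.congr_fun hn z)).symm)
    exact absurd (show (2 : ZMod 4) = 0 from (h2 ▸ h4 : 2 • z ∈ (p.ker : Set X))) (by decide)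

end Pool.Agent.Results.MP_24a371_gt.Counter
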